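import Pool.Agent.H30.HQ.Targets

/-!
Row FQF of hqn_modules: the selecting function in terms of the inner products.
-/

set_option autoImplicit false

namespace Pool.Agent.H30.HQ.FQF

open Pool.Agent.H48.FR Pool.Agent.H30.HQ

lemma tl_cons {k : ℕ} (a : ℂ) (v : Fin (2 * k + 1) → ℂ) :
    tl (Fin.cons a v : Fin (2 * k + 1 + 1) → ℂ) = v := by
  funext i
  rfl

lemma vv_cons {k : ℕ} (a b : ℂ) (v : Fin (2 * k + 1) → ℂ) :
    vv (Fin.cons a v : Fin (2 * k + 1 + 1) → ℂ) = vv (Fin.cons b v : Fin (2 * k + 1 + 1) → ℂ) := by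
  unfold vv
  rw [tl_cons, tl_cons]

theorem pf_FQF : T_FQF := by
  intro k g hg
  refine ⟨fun C φ x s q => ?_, ?_⟩
  · obtain ⟨q, b⟩ := q
    cases b
    · change (1 - s) * (zh x * Real.cos φ) + FG g (xN φ x) s q.1 =
        (1 - s) * (zh x * Real.cos φ + re (q.1 * xN φ x 0)) +
          s * (g (fun j => q.1 * vv (xN φ x) j) - 0)
      unfold FG
      ring
    · change -((1 - s) * (zh x * Real.cos φ)) - s * C + FG g (xS φ x) s q.1 =
        (1 - s) * (-(zh x * Real.cos φ) + re (q.1 * xS φ x 0)) +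
          s * (g (fun j => q.1 * vv (xN φ x) j) - C)
      have e : vv (xS φ x) = vv (xN φ x) := vv_cons _ _ _
      unfold FG
      rw [e]
      ring
  · have hK : IsCompact {w : Fin (2 * k + 1) → ℂ | nrm w = 1} := by
      refine Metric.isCompact_of_isClosed_isBounded ?_ ?_
      · exact isClosed_eq continuous_nrm continuous_const
      · rw [isBounded_iff_forall_norm_le]
        refine ⟨1, fun w hw => ?_⟩
        rw [pi_norm_le_iff_of_nonneg zero_le_one]
        intro i
        have h1 : ‖w i‖ ^ 2 ≤ 1 := by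
          have h2 : ∑ i, ‖w i‖ ^ 2 = 1 := (nrm_eq_one_iff w).1 hw
          rw [← h2]
          exact Finset.single_le_sum (f := fun i => ‖w i‖ ^ 2) (fun i _ => sq_nonneg _)
            (Finset.mem_univ i)
        nlinarith [norm_nonneg (w i)]
    obtain ⟨G, hG⟩ := hK.exists_bound_of_continuousOn hg.continuousOn
    refine ⟨max G 0, le_max_right _ _, fun φ x q hx => ?_⟩
    have hx' : tl (xN φ x) ≠ 0 := by
      have e : tl (xN φ x) = t2 (m := 2 * k + 1) x := tl_cons _ _
      rw [e]
      exact hx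
    have h1 : nrm (fun j => q.1.1 * vv (xN φ x) j) = 1 := by
      have e : (fun j => q.1.1 * vv (xN φ x) j) = q.1.1 • vv (xN φ x) := rfl
      rw [e, nrm_smul, q.1.2, nrm_vv hx', one_mul]
    have h2 := hG _ h1
    rw [Real.norm_eq_abs] at h2
    exact h2.trans (le_max_left _ _)

end Pool.Agent.H30.HQ.FQF
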