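import Pool.Agent.H30.HQ.Targets

/-!
Row HQF of hqn_modules: the upper bound.
-/

set_option autoImplicit false

namespace Pool.Agent.H30.HQ.HQF

open Pool.Agent.H59 Pool.Agent.H48.FR Pool.Agent.H58.FL Pool.Agent.H58.JU Pool.Agent.H30.HQ
open scoped Quaternion

theorem pf_HQF (hSP : T_SP) (hABB : T_ABB) (hQGM : T_QGM) (hQDT : T_QDT)
    (hSUR : T_SUR) (hKSU : T_KSU) (hPAB : T_PAB) : T_HQF := by
  intro n ε hε hn hlt
  have hpi := Real.pi_pos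
  obtain ⟨k, rfl⟩ : ∃ k, n = k + 1 := ⟨n - 1, by omega⟩
  obtain ⟨h1, h2⟩ := hPAB.1 (k + 1) hn
  have h3 : Real.arccos (-(1 / 3)) ≤ Real.pi := Real.arccos_le_pi _
  have hmin : 2 * radH (k + 1) < min (2 * ε) (Real.pi / 2) :=
    lt_min (by linarith) (by linarith)
  obtain ⟨g, hg⟩ := hQGM (k + 1)
  obtain ⟨Δ, hΔg, hΔr⟩ := hQDT k g hg ((2 * radH (k + 1) + min (2 * ε) (Real.pi / 2)) / 2)
    (by linarith) (by have := min_le_right (2 * ε) (Real.pi / 2); linarith)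
  obtain ⟨hcS, hcQ, hπc, hπs⟩ := hSP ℍ[ℝ] (k + 1)
  obtain ⟨hcS', hcQ', hπc', hπs'⟩ := hSP ℂ (2 * (k + 1))
  have hcM : CompactSpace (HPn (k + 1)) := by
    have : Set.range (prS : Sph ℍ[ℝ] (k + 1) → PP ℍ[ℝ] (k + 1)) = Set.univ := hπs.range_eq
    have h4 : CompactSpace (PP ℍ[ℝ] (k + 1)) := by
      rw [← isCompact_univ_iff, ← this]
      exact isCompact_range hπc
    exact h4
  have hneU : Nonempty (Usc ℂ) := ⟨⟨1, norm_one⟩⟩
  have hneR : Nonempty Rg := ⟨(hneU.some, false)⟩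
  have hneS : Nonempty (Sph ℂ (2 * (k + 1))) := by
    obtain ⟨X, -⟩ := hπs' (bp ℂ (2 * (k + 1)))
    exact ⟨X⟩
  have hcR : CompactSpace Rg := inferInstance
  have h5 := hABB (HPn (k + 1)) (CPn (2 * (k + 1))) (Sph ℂ (2 * (k + 1))) Rg Δ ε hε (by
    rw [hΔr]
    have := min_le_left (2 * ε) (Real.pi / 2)
    linarith)
  rw [hΔg] at h5
  have h6 := hKSU (HPn (k + 1)) (CPn (2 * (k + 1))) (UE (HPn (k + 1)) ε) g
    (kc (HPn (k + 1)) ε hε) (4 * k + 3) (fun z hz => hSUR k g hg z hz) h5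
  exact h6

end Pool.Agent.H30.HQ.HQF
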