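import Pool.Agent.H30.HQ.Targets
import Pool.Agent.H13.FL.HEQ

/-!
Row KSU of hqn_modules: null-homotopy after a map which is onto in homology.
-/

set_option autoImplicit false

namespace Pool.Agent.H30.HQ.KSU

open Pool.Agent.H59 Pool.Agent.H48.FR Pool.Agent.H58.FL Pool.Agent.H30.HQ Pool.Agent.H13.FL

theorem pf_KSU (hHTP : T_HTP) (hCTR : T_CTR) (hKIB : T_KIB) : T_KSU := by
  intro Y Y' Z _ _ _ g f d hon hnull
  have hK : KillsN 1 (d + 1) f := by
    refine hKIB Y Z f d 1 fun z hz => ?_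
    obtain ⟨z', b, hz', hb⟩ := hon z hz
    obtain ⟨y₀, hy₀⟩ := hnull
    have hz'' : IsZ z' := hz'
    obtain ⟨b', hb'⟩ := hHTP Y' Z (f.comp g) (ContinuousMap.const Y' y₀) hy₀ (d + 2) z' hz''
    -- the constant map
    let t : C(Y', Unit) := ContinuousMap.const Y' ()
    let u : C(Unit, Z) := ContinuousMap.const Unit y₀
    obtain ⟨c, hc⟩ := hCTR Unit (d + 2) (pf ℤ (d + 2) t z') (isZ_pf _ t z' hz'')
    have hcc : pf ℤ (d + 2) (ContinuousMap.const Y' y₀) z' =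
        bd ℤ (d + 2) Z (pf ℤ (d + 3) u c) := by
      rw [bd_pf, hc, ← pf_comp]
      rfl
    refine ⟨pf ℤ (d + 3) f b + b' + pf ℤ (d + 3) u c, ?_⟩
    rw [map_add, map_add, bd_pf, hb, hb', ← hcc, map_sub, ← pf_comp, one_smul]
    abel
  have h1 : (1 : ℤ) • (HZ (d + 1)).map (TopCat.ofHom f) = 0 := hK
  rw [one_smul] at h1
  exact h1

end Pool.Agent.H30.HQ.KSU
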