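import Pool.Agent.H30.HQ.Targets
import Pool.Agent.H79.FL.MVL
import Pool.Agent.H13.FL.HEQ

/-!
Row MVS of hqn_modules: a map with a section over the intersection of two open sets.
-/

set_option autoImplicit false

open Set

namespace Pool.Agent.H30.HQ.MVS

open Pool.Agent.H59 Pool.Agent.H48.FR Pool.Agent.H58.FL Pool.Agent.H30.HQ Pool.Agent.H79.FL.MVL
  Pool.Agent.H13.FL

/-- the image of a chain in the preimage -/
lemma pf_mem {Y Y' : Type} [TopologicalSpace Y] [TopologicalSpace Y'] (f : C(Y', Y)) (W : Set Y)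
    (n : ℕ) {x : Ch ℤ n Y'} (hx : x ∈ Sup n (f ⁻¹' W)) : pf ℤ n f x ∈ Sup n W := by
  refine lin_mem (pf ℤ n f) {σ : Smp n Y' | ∀ x, σ x ∈ f ⁻¹' W} (Sup n W) (fun σ hσ => ?_) hx
  rw [pf_single]
  exact single_mem_Sup (σ := f.comp σ) (fun x => hσ x) _

/-- the image of a chain under a map into `W` -/
lemma pf_mem' {Z Y' : Type} [TopologicalSpace Z] [TopologicalSpace Y'] (s : C(Z, Y'))
    (W : Set Y') (hs : ∀ u, s u ∈ W) (n : ℕ) (x : Ch ℤ n Z) : pf ℤ n s x ∈ Sup n W := by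
  refine lin_mem _ univ _ (fun σ _ => ?_) (by simp)
  rw [pf_single]
  exact single_mem_Sup (fun x => hs (σ x)) _

theorem pf_MVS : T_MVS := by
  intro Y Y' _ _ f O₁ O₂ s h₁ h₂ hU hs n v₁ v₂ w₁ w₂ z hz
  obtain ⟨z₁, z₂, e, hsp⟩ := exists_spl h₁ h₂ hU z hz
  obtain ⟨w', hw'⟩ := lift_Sup hsp.bd_mem
  have hw'z : IsZ w' := isZ_of (by rw [hw']; exact isZ_bd z₁)
  obtain ⟨v, hv⟩ : ∃ v, v = pf ℤ n s w' := ⟨_, rfl⟩
  have hvz : IsZ v := by rw [hv]; exact isZ_pf n s w' hw'z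
  have hfv : pf ℤ n f v = bd ℤ n Y z₁ := by
    rw [hv, ← pf_comp]
    have e1 : f.comp s = inc (O₁ ∩ O₂) := ContinuousMap.ext fun u => hs u
    rw [e1, hw']
  have m1 : v ∈ Sup n (f ⁻¹' O₁) := by
    rw [hv]
    exact pf_mem' s _ (fun u => by
      change f (s u) ∈ O₁
      rw [hs u]; exact u.2.1) n w'
  have m2 : v ∈ Sup n (f ⁻¹' O₂) := by
    rw [hv]
    exact pf_mem' s _ (fun u => by
      change f (s u) ∈ O₂
      rw [hs u]; exact u.2.2) n w'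
  obtain ⟨a₁, ha₁, hb₁⟩ := vanS w₁ v m1 hvz
  obtain ⟨a₂, ha₂, hb₂⟩ := vanS w₂ v m2 hvz
  obtain ⟨b₁, -, hc₁⟩ := vanS v₁ (pf ℤ (n + 1) f a₁ - z₁)
    (Submodule.sub_mem _ (pf_mem f O₁ (n + 1) ha₁) hsp.m1) (by
      show bd ℤ n Y (pf ℤ (n + 1) f a₁ - z₁) = 0
      rw [map_sub, bd_pf, hb₁, hfv, sub_self])
  obtain ⟨b₂, -, hc₂⟩ := vanS v₂ (pf ℤ (n + 1) f a₂ + z₂)
    (Submodule.add_mem _ (pf_mem f O₂ (n + 1) ha₂) hsp.m2) (by
      show bd ℤ n Y (pf ℤ (n + 1) f a₂ + z₂) = 0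
      rw [map_add, bd_pf, hb₂, hfv]
      exact hsp.bd_eq)
  refine ⟨a₁ - a₂, e - b₁ + b₂, ?_, ?_⟩
  · rw [map_sub, hb₁, hb₂, sub_self]
  · rw [map_add, map_sub, hc₁, hc₂, map_sub]
    conv_rhs => rw [hsp.eq]
    abel

end Pool.Agent.H30.HQ.MVS
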