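import Pool.Agent.H30.HQ.Targets

/-!
Row PAB of hqn_modules: choice of the parameters.
-/

set_option autoImplicit false

namespace Pool.Agent.H30.HQ.PAB

open Pool.Agent.H48.FR Pool.Agent.H30.HQ

lemma cc (x : ℝ) (hx : 3 ≤ x) : 1 / 2 ≤ Real.cos (Real.pi / x) ∧ Real.cos (Real.pi / x) < 1 := by
  have hpi := Real.pi_pos
  have h0 : 0 < Real.pi / x := by positivity
  have h1 : Real.pi / x ≤ Real.pi / 3 := by
    apply div_le_div_of_nonneg_left hpi.le (by norm_num) hx
  constructor
  · rw [← Real.cos_pi_div_three]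
    exact Real.cos_le_cos_of_nonneg_of_le_pi h0.le (by linarith) h1
  · rw [← Real.cos_zero]
    exact Real.cos_lt_cos_of_nonneg_of_le_pi le_rfl (by linarith) h0

theorem pf_PAB : T_PAB := by
  have hpi := Real.pi_pos
  refine ⟨fun n hn => ?_, ?_, fun k r h1 h2 => ?_⟩
  · have hn' : (1 : ℝ) ≤ n := by exact_mod_cast hn
    obtain ⟨c1, c2⟩ := cc (4 * n - 1) (by linarith)
    unfold radH
    obtain ⟨c, hc⟩ : ∃ c, c = Real.cos (Real.pi / (4 * n - 1)) := ⟨_, rfl⟩
    rw [← hc] at c1 c2 ⊢
    have h3 : 0 < c / (2 + c) := by positivity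
    have h4 : c / (2 + c) < 1 / 3 := by
      rw [div_lt_div_iff₀ (by linarith) (by norm_num)]
      linarith
    constructor
    · have : 0 < Real.arccos (-(c / (2 + c))) := Real.arccos_pos.2 (by linarith)
      linarith
    · have : Real.arccos (-(c / (2 + c))) < Real.arccos (-(1 / 3)) :=
        Real.arccos_lt_arccos (by norm_num) (by linarith) (by linarith)
      linarith
  · unfold radH
    have e : Real.cos (Real.pi / (4 * ((1 : ℕ) : ℝ) - 1)) = 1 / 2 := by
      rw [show 4 * ((1 : ℕ) : ℝ) - 1 = 3 by norm_num, Real.cos_pi_div_three]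
    rw [e]
    norm_num
  · have hk : (0 : ℝ) ≤ k := Nat.cast_nonneg k
    obtain ⟨c1, c2⟩ := cc (4 * k + 3) (by linarith)
    have e0 : 4 * ((k + 1 : ℕ) : ℝ) - 1 = 4 * k + 3 := by push_cast; ring
    unfold radH at h1
    rw [e0] at h1
    obtain ⟨c, hc⟩ : ∃ c, c = Real.cos (Real.pi / (4 * k + 3)) := ⟨_, rfl⟩
    rw [← hc] at c1 c2 h1 ⊢
    have h3 : 0 < c / (2 + c) := by positivity
    have h4 : c / (2 + c) < 1 / 3 := by
      rw [div_lt_div_iff₀ (by linarith) (by norm_num)]
      linarith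
    have ha : Real.arccos (-(c / (2 + c))) < 2 * r := by linarith
    have hcos : Real.cos (2 * r) < -(c / (2 + c)) := by
      have := Real.cos_lt_cos_of_nonneg_of_le_pi (Real.arccos_nonneg _) (by linarith) ha
      rwa [Real.cos_arccos (by linarith) (by linarith)] at this
    have ha0 : 0 ≤ Real.arccos (-(c / (2 + c))) := Real.arccos_nonneg _
    have hlow : -1 < Real.cos (2 * r) := by
      have := Real.cos_lt_cos_of_nonneg_of_le_pi (x := 2 * r) (y := Real.pi) (by linarith) le_rfl
        (by linarith)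
      rwa [Real.cos_pi] at this
    obtain ⟨t, ht⟩ : ∃ t, t = -Real.cos (2 * r) := ⟨_, rfl⟩
    have hcr : Real.cos (2 * r) = -t := by rw [ht]; ring
    rw [hcr] at hcos hlow ⊢
    have ht0 : c / (2 + c) < t := by linarith
    have ht1 : t < 1 := by linarith
    have h5 : c < t * (2 + c) := by rwa [div_lt_iff₀ (by linarith)] at ht0
    have h6 : (c - t) / (1 + c) < t := by
      rw [div_lt_iff₀ (by linarith)]
      linarith
    obtain ⟨w, hw⟩ : ∃ w, w = (max 0 ((c - t) / (1 + c)) + t) / 2 := ⟨_, rfl⟩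
    have m1 : 0 ≤ max 0 ((c - t) / (1 + c)) := le_max_left _ _
    have m2 : (c - t) / (1 + c) ≤ max 0 ((c - t) / (1 + c)) := le_max_right _ _
    have m3 : max 0 ((c - t) / (1 + c)) < t := max_lt (by linarith) h6
    have w0 : 0 < w := by rw [hw]; linarith
    have w1 : w < t := by rw [hw]; linarith
    have w2 : (c - t) / (1 + c) < w := by rw [hw]; linarith
    have w3 : c - t < w * (1 + c) := by rwa [div_lt_iff₀ (by linarith)] at w2
    have s0 : 0 < Real.sqrt w := Real.sqrt_pos.2 w0
    have s1 : Real.sqrt w < 1 := by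
      rw [Real.sqrt_lt' one_pos]
      linarith
    have cp : Real.cos (Real.arccos (Real.sqrt w)) = Real.sqrt w :=
      Real.cos_arccos (by linarith) s1.le
    have cp2 : Real.cos (Real.arccos (Real.sqrt w)) ^ 2 = w := by rw [cp, Real.sq_sqrt w0.le]
    have sp2 : Real.sin (Real.arccos (Real.sqrt w)) ^ 2 = 1 - w := by
      rw [Real.sin_sq, cp2]
    have q0 : 0 < Real.arccos (Real.sqrt w) := Real.arccos_pos.2 s1
    have q1 : Real.arccos (Real.sqrt w) < Real.pi / 2 := Real.arccos_lt_pi_div_two.2 s0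
    refine ⟨Real.arccos (Real.sqrt w), q0, q1, ?_, by linarith, by rw [cp2]; linarith, ?_⟩
    · by_contra hcon
      push Not at hcon
      have h7 : 0 ≤ Real.cos (2 * r) :=
        Real.cos_nonneg_of_mem_Icc ⟨by linarith, by linarith⟩
      rw [hcr] at h7
      linarith
    · rw [cp2, sp2]
      nlinarith

end Pool.Agent.H30.HQ.PAB
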