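import Pool.Agent.H30.HQ.Targets

/-!
Row QFP of hqn_modules: points of maximum on one of the circles.
-/

set_option autoImplicit false

namespace Pool.Agent.H30.HQ.QFP

open Pool.Agent.H48.FR Pool.Agent.H30.HQ

lemma tl_xN {k : ℕ} (φ : ℝ) (x : Fin (2 * (k + 1) + 1) → ℂ) :
    tl (xN φ x) = t2 (m := 2 * k + 1) x := rfl

lemma tl_xS {k : ℕ} (φ : ℝ) (x : Fin (2 * (k + 1) + 1) → ℂ) :
    tl (xS φ x) = t2 (m := 2 * k + 1) x := rfl

theorem pf_QFP (hRZ : T_RZ) : T_QFP := by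
  intro k g hg C φ x s hx hs
  have hN : tl (xN φ x) ≠ 0 := by rw [tl_xN]; exact hx
  have hS : tl (xS φ x) ≠ 0 := by rw [tl_xS]; exact hx
  obtain ⟨a, ha, ha0⟩ := FG_pos hg hN hs.le (fun h => absurd h hs.ne')
  obtain ⟨b, hb, hb0⟩ := FG_pos hg hS hs.le (fun h => absurd h hs.ne')
  refine ⟨⟨(⟨a, ha⟩, false), rfl, ?_⟩, ?_⟩
  · change (1 - s) * (zh x * Real.cos φ) < (1 - s) * (zh x * Real.cos φ) + FG g (xN φ x) s a
    linarith
  · rintro ⟨q, u⟩ ⟨q', u'⟩ hq hq' huu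
    change u = u' at huu
    subst huu
    change -Real.cos (Real.pi / (4 * k + 3)) ≤ re (q.1 * star q'.1)
    have e : (2 * ((2 * k + 1 : ℕ) : ℝ) + 1) = 4 * k + 3 := by push_cast; ring
    cases u
    · have m1 : ∀ c : ℂ, ‖c‖ = 1 → FG g (xN φ x) s c ≤ FG g (xN φ x) s q.1 := by
        intro c hc
        have h1 : (1 - s) * (zh x * Real.cos φ) + FG g (xN φ x) s c ≤
          (1 - s) * (zh x * Real.cos φ) + FG g (xN φ x) s q.1 := hq (⟨c, hc⟩, false)
        linarith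
      have m2 : ∀ c : ℂ, ‖c‖ = 1 → FG g (xN φ x) s c ≤ FG g (xN φ x) s q'.1 := by
        intro c hc
        have h1 : (1 - s) * (zh x * Real.cos φ) + FG g (xN φ x) s c ≤
          (1 - s) * (zh x * Real.cos φ) + FG g (xN φ x) s q'.1 := hq' (⟨c, hc⟩, false)
        linarith
      have h2 := FG_far hRZ hg (xN φ x) s q.1 q'.1 (by omega) q.2 q'.2 m1 m2
        (ha0.trans_le (m1 a ha))
      rw [e] at h2
      exact h2
    · have m1 : ∀ c : ℂ, ‖c‖ = 1 → FG g (xS φ x) s c ≤ FG g (xS φ x) s q.1 := by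
        intro c hc
        have h1 : -((1 - s) * (zh x * Real.cos φ)) - s * C + FG g (xS φ x) s c ≤
          -((1 - s) * (zh x * Real.cos φ)) - s * C + FG g (xS φ x) s q.1 := hq (⟨c, hc⟩, true)
        linarith
      have m2 : ∀ c : ℂ, ‖c‖ = 1 → FG g (xS φ x) s c ≤ FG g (xS φ x) s q'.1 := by
        intro c hc
        have h1 : -((1 - s) * (zh x * Real.cos φ)) - s * C + FG g (xS φ x) s c ≤
          -((1 - s) * (zh x * Real.cos φ)) - s * C + FG g (xS φ x) s q'.1 := hq' (⟨c, hc⟩, true)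
        linarith
      have h2 := FG_far hRZ hg (xS φ x) s q.1 q'.1 (by omega) q.2 q'.2 m1 m2
        (hb0.trans_le (m1 b hb))
      rw [e] at h2
      exact h2

end Pool.Agent.H30.HQ.QFP
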