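import Pool.Agent.H30.HQ.Targets

/-!
Row QNP of hqn_modules: near the base point and at the end the selected points are on the first
circle.
-/

set_option autoImplicit false

namespace Pool.Agent.H30.HQ.QNP

open Pool.Agent.H48.FR Pool.Agent.H30.HQ

theorem pf_QNP (hFQF : T_FQF) (hQFP : T_QFP) (hQVT : T_QVT) : T_QNP := by
  intro k g hg
  obtain ⟨hF, G, hG0, hG⟩ := hFQF k g hg.cont
  refine ⟨G, hG0, fun φ hφ0 hφ1 => ?_⟩
  have hpi := Real.pi_pos
  have hcos : 0 < Real.cos φ := Real.cos_pos_of_mem_Ioo ⟨by linarith, hφ1⟩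
  have hcos1 : Real.cos φ ≤ 1 := Real.cos_le_one φ
  have hsin0 : 0 ≤ Real.sin φ := Real.sin_nonneg_of_nonneg_of_le_pi hφ0.le (by linarith)
  have hsin1 : Real.sin φ ≤ 1 := Real.sin_le_one φ
  obtain ⟨d, hd⟩ : ∃ d, d = Real.arcsin (Real.cos φ / 4) := ⟨_, rfl⟩
  have hd0 : 0 < d := by rw [hd]; exact Real.arcsin_pos.2 (by linarith)
  have hds : Real.sin d = Real.cos φ / 4 := by
    rw [hd]; exact Real.sin_arcsin (by linarith) (by linarith)
  have hd1 : d ≤ Real.pi / 4 := by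
    rw [hd, Real.arcsin_le_iff_le_sin ⟨by linarith, by linarith⟩ ⟨by linarith, by linarith⟩,
      Real.sin_pi_div_four]
    have : (1 : ℝ) ≤ Real.sqrt 2 := by
      rw [show (1 : ℝ) = Real.sqrt 1 by simp]
      exact Real.sqrt_le_sqrt (by norm_num)
    linarith
  have hd2 : Real.cos (2 * d) = 1 - 2 * (Real.cos φ / 4) ^ 2 := by
    rw [Real.cos_two_mul, ← hds]
    have := Real.sin_sq_add_cos_sq d
    linarith
  refine ⟨d, hd0, hd1, fun x s hx1 hx hs0 hs1 hcase q hq => ?_⟩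
  obtain ⟨⟨q', hq'2, hq'⟩, -⟩ := hQFP k g hg G φ x s hx hs0
  have h0 := hq'.trans_le (hq q')
  obtain ⟨q, b⟩ := q
  cases b
  · rfl
  exfalso
  obtain ⟨-, -, e3, -⟩ := hQVT k x
  rw [hx1] at e3
  obtain ⟨T, hT⟩ : ∃ T, T = nrm (t2 (m := 2 * k + 1) x) := ⟨_, rfl⟩
  have hT0 : 0 ≤ T := by rw [hT]; exact nrm_nonneg _
  rw [← hT] at e3
  have hx1' : ‖xk x 1‖ ≤ 1 := by
    have h1 := sq_nonneg ‖xk x 0‖
    have h2 := sq_nonneg T
    nlinarith [norm_nonneg (xk x 1)]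
  -- the value
  rw [hF] at h0
  have h1 : g (fun j => q.1 * vv (xN φ x) j) ≤ G := (abs_le.1 (hG φ x (q, true) hx)).2
  have h2 : EQ φ x (q, true) ≤ -(zh x * Real.cos φ) + 2 * Real.sin φ * T := by
    change -(zh x * Real.cos φ) + re (q.1 * xS φ x 0) ≤ _
    have h3 : re (q.1 * xS φ x 0) ≤ ‖xS φ x 0‖ := by
      have := re_le_norm (q.1 * xS φ x 0)
      rwa [norm_mul, q.2, one_mul] at this
    have h4 : ‖xS φ x 0‖ = 2 * Real.sin φ * T * ‖xk x 1‖ := by
      change ‖(((-(2 * Real.sin φ * nrm (t2 (m := 2 * k + 1) x)) : ℝ) : ℂ)) * xk x 1‖ = _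
      rw [← hT, norm_mul, Complex.norm_real, norm_neg, Real.norm_of_nonneg (by positivity)]
    have h5 : 2 * Real.sin φ * T * ‖xk x 1‖ ≤ 2 * Real.sin φ * T * 1 :=
      mul_le_mul_of_nonneg_left hx1' (by positivity)
    linarith
  have h3 : (1 - s) * EQ φ x (q, true) + s * (g (fun j => q.1 * vv (xN φ x) j) - G) ≤
      (1 - s) * EQ φ x (q, true) := by
    have := mul_nonneg hs0.le (sub_nonneg.2 h1)
    linarith
  have h4 : (1 - s) * (zh x * Real.cos φ) < (1 - s) * EQ φ x (q, true) := by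
    refine lt_of_lt_of_le h0 ?_
    exact h3
  rcases hcase with h5 | h5
  · rw [h5] at h4
    linarith
  · rw [hd2] at h5
    have hz : zh x = 1 - 2 * T ^ 2 := by rw [hT]; rfl
    have hT1 : T ≤ Real.cos φ / 4 := by
      rw [hz] at h5
      nlinarith
    have h6 : zh x * Real.cos φ < EQ φ x (q, true) := lt_of_mul_lt_mul_left h4 (by linarith)
    have h7 : 2 * Real.sin φ * T ≤ Real.cos φ / 2 := by nlinarith
    have h8 : 7 / 8 ≤ zh x := by nlinarith
    nlinarith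

end Pool.Agent.H30.HQ.QNP
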