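import Pool.Agent.H30.HQ.Targets

/-!
Row QNR of hqn_modules: at the start the selected points are near the point.
-/

set_option autoImplicit false

namespace Pool.Agent.H30.HQ.QNR

open Pool.Agent.H48.FR Pool.Agent.H30.HQ

theorem pf_QNR (hFQF : T_FQF) : T_QNR := by
  intro k g hg C φ η hφ0 hφ1 hη
  obtain ⟨hF, G, hG0, hG⟩ := hFQF k g hg
  have hcos : 0 < Real.cos φ := Real.cos_pos_of_mem_Ioo ⟨by linarith, hφ1⟩
  obtain ⟨B, hB⟩ : ∃ B, B = G + |C| := ⟨_, rfl⟩
  have hB0 : 0 ≤ B := by rw [hB]; positivity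
  obtain ⟨s, hs⟩ : ∃ s, s = η / (2 * B + η + 1) := ⟨_, rfl⟩
  have hden : 0 < 2 * B + η + 1 := by linarith
  have hs0 : 0 < s := by rw [hs]; positivity
  have hsm : s * (2 * B + η + 1) = η := by rw [hs]; field_simp
  have hs1 : s < 1 := by
    rw [hs, div_lt_one hden]
    linarith
  have hkey : 2 * s * B < (1 - s) * η := by nlinarith
  refine ⟨s, hs0, hs1, fun x hx q hq => ?_⟩
  -- the bound of the second part
  have hT : ∀ q : Rg, |g (fun j => q.1.1 * vv (xN φ x) j) - (if q.2 then C else 0)| ≤ B := by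
    intro q
    have h1 := hG φ x q hx
    have h2 : |(if q.2 then C else 0)| ≤ |C| := by
      split_ifs
      · exact le_rfl
      · rw [abs_zero]; exact abs_nonneg _
    have h3 := abs_sub (g (fun j => q.1.1 * vv (xN φ x) j)) (if q.2 then C else 0)
    rw [hB]
    linarith
  -- a point with nonnegative inner product
  obtain ⟨q', hq'⟩ : ∃ q' : Rg, 0 ≤ EQ φ x q' := by
    rcases le_or_gt 0 (zh x) with hz | hz
    · obtain ⟨a, ha, ha1, -⟩ := exists_unit_re (xN φ x 0)
      refine ⟨(⟨a, ha⟩, false), ?_⟩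
      change 0 ≤ zh x * Real.cos φ + re (a * xN φ x 0)
      rw [ha1]
      positivity
    · obtain ⟨a, ha, ha1, -⟩ := exists_unit_re (xS φ x 0)
      refine ⟨(⟨a, ha⟩, true), ?_⟩
      change 0 ≤ -(zh x * Real.cos φ) + re (a * xS φ x 0)
      rw [ha1]
      have := mul_nonneg (neg_nonneg.2 hz.le) hcos.le
      have h2 := norm_nonneg (xS φ x 0)
      linarith
  have h1 := hq q'
  rw [hF, hF] at h1
  have h2 := (abs_le.1 (hT q)).2
  have h3 := (abs_le.1 (hT q')).1
  have h4 : 0 ≤ (1 - s) * EQ φ x q' := mul_nonneg (by linarith) hq'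
  have h5 := mul_le_mul_of_nonneg_left h2 hs0.le
  have h6 := mul_le_mul_of_nonneg_left h3 hs0.le
  have h7 : -(2 * s * B) ≤ (1 - s) * EQ φ x q := by nlinarith
  have h8 : (1 - s) * (-η) < (1 - s) * EQ φ x q := by linarith
  exact lt_of_mul_lt_mul_left h8 (by linarith)

end Pool.Agent.H30.HQ.QNR
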