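import Pool.Agent.H58.JU.Asm
import Pool.Agent.H58.FL.AsmA
import Pool.Agent.H48.FR.All
import Pool.Agent.H20.HQ.ABB
import Pool.Agent.H1.HQN.CPB
import Pool.Agent.H1.HQN.HOB
import Pool.Agent.H1.HQN.QVT
import Pool.Agent.H14.HQ.DS2
import Pool.Agent.H14.HQ.SUR
import Pool.Agent.H89.HQ.QDT
import Pool.Agent.H43.HQ.SUS
import Pool.Agent.H43.HQ.QCI
import Pool.Agent.H43.HQ.QDS
import Pool.Agent.H76.HQ.QGM
import Pool.Agent.H68.HQN.QVA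
import Pool.Agent.H30.HQ.PAB
import Pool.Agent.H30.HQ.FQF
import Pool.Agent.H30.HQ.QFP
import Pool.Agent.H30.HQ.QNR
import Pool.Agent.H30.HQ.QNP
import Pool.Agent.H30.HQ.MVS
import Pool.Agent.H30.HQ.KSU
import Pool.Agent.H30.HQ.HQF

/-!
MP_6a7a6f_gt: composition of the rows of the board hqn_modules.
-/

set_option autoImplicit false

namespace Pool.Agent.H30.HQ.All

open Pool.Agent.H48.FR Pool.Agent.H58.FL Pool.Agent.H58.JU Pool.Agent.H30.HQ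
open scoped Quaternion

theorem aSP : T_SP := Pool.Agent.H42.FR.sp

theorem aDS : T_DS := Pool.Agent.H89.FR.DS.ds

theorem aRZ : T_RZ := Pool.Agent.H69.FR.rz

theorem aTH : T_TH := Pool.Agent.H33.FR.pf_TH

theorem aQTA : T_QTA := Pool.Agent.H68.HQN.pf_QTA

theorem aQVA : T_QVA := Pool.Agent.H68.HQN.pf_QVA aQTA

theorem aQVT : T_QVT := Pool.Agent.H1.HQN.pf_QVT aQTA aQVA

theorem aQGM : T_QGM := Pool.Agent.H76.HQ.pf_QGM aQVA Pool.Agent.H58.JU.A.aCMH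

theorem aDS2 : T_DS2 := Pool.Agent.H14.HQ.pf_DS2

theorem aPAB : T_PAB := PAB.pf_PAB

theorem aFQF : T_FQF := FQF.pf_FQF

theorem aQFP : T_QFP := QFP.pf_QFP aRZ

theorem aQNR : T_QNR := QNR.pf_QNR aFQF

theorem aQNP : T_QNP := QNP.pf_QNP aFQF aQFP aQVT

theorem aQCI : T_QCI := Pool.Agent.H43.HQ.pf_QCI aQTA aQVA aQVT

theorem aQDS : T_QDS := Pool.Agent.H43.HQ.pf_QDS aQTA aQVA aQVT aDS aDS2

theorem aQDT : T_QDT := Pool.Agent.H89.HQ.pf_QDT aSP aQVA aQDS aQFP aQNR aQNP aQCI aPAB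

theorem aABB : T_ABB := Pool.Agent.H20.HQ.pf_ABB aTH Pool.Agent.H1.HQN.pf_HOB
  Pool.Agent.H1.HQN.pf_CPB

theorem aSUS : T_SUS := Pool.Agent.H43.HQ.pf_SUS aQTA aQVA Pool.Agent.H58.JU.A.aHEQ
  Pool.Agent.H58.JU.A.aCTR Pool.Agent.H58.JU.A.aCMH Pool.Agent.H58.FL.A.aCPG
  Pool.Agent.H58.JU.A.aHPV

theorem aSUR : T_SUR := Pool.Agent.H14.HQ.pf_SUR MVS.pf_MVS aSUS

theorem aKSU : T_KSU := KSU.pf_KSU Pool.Agent.H58.JU.A.aHTP Pool.Agent.H58.JU.A.aCTR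
  Pool.Agent.H58.FL.A.aKIB

theorem aHQF : T_HQF := HQF.pf_HQF aSP aABB aQGM aQDT aSUR aKSU aPAB

/-- The upper bound for the filling radius of `HPn n`. -/
theorem fillR_le (n : ℕ) (hn : 1 ≤ n) : FillR (HPn n) (4 * n) ≤ radH n := by
  rw [FillR_eq]
  refine fillRad_le fun ε hlt => ?_
  have hε : 0 < ε := (aPAB.1 n hn).1.trans hlt
  exact ⟨hε, aHQF n ε hε hn hlt⟩

end Pool.Agent.H30.HQ.All
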