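import Pool.Agent.H48.FR.FG
import Pool.Agent.H58.JU.Targets

/-!
MP_6a7a6f_gt, board hqn_modules: an upper bound for the filling radius of all quaternionic
projective spaces, by the map of a complex projective space onto it.
-/

open Topology Filter

namespace Pool.Agent.H30.HQ

noncomputable section

open Pool.Agent.H59 Pool.Agent.H48.FR Pool.Agent.H58.FL Pool.Agent.H58.JU
open scoped Quaternion

/-! ## Part I: the abstract contraction of a map `g : B → M` -/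

/-- the data of the contraction: `S → B → M` with `S` compact, a base point `p` of `M`, over each
point `X` of `S` a ring `y X q` of points of `M`, and a function `F X s` on the ring -/
structure DatB (M B S Q : Type) [MetricSpace M] [TopologicalSpace B] [TopologicalSpace S]
    [TopologicalSpace Q] where
  pb : S → B
  g : C(B, M)
  p : M
  y : S → Q → M
  F : S → ℝ → Q → ℝ
  s₀ : ℝ
  r : ℝ
  d₁ : ℝ
  hpb : Continuous pb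
  surj : Function.Surjective pb
  s₀_mem : s₀ ∈ Set.Icc (0 : ℝ) 1
  r_pos : 0 < r
  d₁_pos : 0 < d₁
  d₁_le : d₁ ≤ r
  hy : ContinuousOn (fun Z : S × Q => y Z.1 Z.2) {Z | g (pb Z.1) ≠ p}
  hF : ContinuousOn (fun Z : S × ℝ × Q => F Z.1 Z.2.1 Z.2.2) {Z | g (pb Z.1) ≠ p}
  inv : ∀ X X', pb X = pb X' → ∀ q, ∃ q', y X q = y X' q' ∧ ∀ s, F X s q = F X' s q'
  near_p : ∀ X, g (pb X) ≠ p → dist p (g (pb X)) ≤ d₁ → ∀ s ∈ Set.Icc s₀ 1, ∀ q,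
    IsMx (F X s) q → dist p (y X q) < r
  end_p : ∀ X, g (pb X) ≠ p → ∀ q, IsMx (F X 1) q → dist p (y X q) < r
  pair : ∀ X, g (pb X) ≠ p → ∀ s ∈ Set.Icc s₀ 1, ∀ q q',
    IsMx (F X s) q → IsMx (F X s) q' → dist (y X q) (y X q') < r
  near : ∀ X, g (pb X) ≠ p → ∀ q, IsMx (F X s₀) q → dist (g (pb X)) (y X q) < r

/-- HOB. From a homotopy on a compact space over `B` to a null-homotopy. -/
def T_HOB : Prop :=
  ∀ (M B S : Type) [MetricSpace M] [CompactSpace M] [TopologicalSpace B] [T2Space B]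
    [TopologicalSpace S] [CompactSpace S] [Nonempty S] (pb : S → B) (g : C(B, M)) (p : M)
    (a ε : ℝ) (hε : 0 < ε) (Θ : S → ℝ → M → ℝ),
    Continuous pb → Function.Surjective pb → a < ε →
    (∀ X z, Θ X 0 z = dist (g (pb X)) z) → (∀ X z, Θ X 1 z = dist p z) →
    (∀ X X', pb X = pb X' → Θ X = Θ X') →
    (∀ X, ∀ t ∈ Set.Icc (0 : ℝ) 1, ∃ m, ∀ z, |Θ X t z - dist m z| ≤ a) →
    (∀ X, ∀ t ∈ Set.Icc (0 : ℝ) 1, ∀ δ > 0, ∀ᶠ Z : S × ℝ in 𝓝 (X, t), Z.2 ∈ Set.Icc (0 : ℝ) 1 →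
      ∀ z, |Θ Z.1 Z.2 z - Θ X t z| ≤ δ) →
      ((kurU M ε hε).comp g).Nullhomotopic

/-- the quantitative form of the conditions -/
def QB {M B S Q : Type} [MetricSpace M] [TopologicalSpace B] [TopologicalSpace S]
    [TopologicalSpace Q] (Δ : DatB M B S Q) (K : ℝ) : Prop :=
  ∀ X, Δ.d₁ / 4 ≤ dist Δ.p (Δ.g (Δ.pb X)) →
    (∀ q₀ q, IsMx (Δ.F X Δ.s₀) q₀ →
      dist (Δ.g (Δ.pb X)) (Δ.y X q) ≤ Δ.r + K * (Δ.F X Δ.s₀ q₀ - Δ.F X Δ.s₀ q)) ∧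
    (∀ s ∈ Set.Icc Δ.s₀ 1, ∀ q₀ q, IsMx (Δ.F X s) q₀ →
      dist (Δ.y X q) (Δ.y X q₀) ≤ Δ.r + K * (Δ.F X s q₀ - Δ.F X s q)) ∧
    (∀ s ∈ Set.Icc Δ.s₀ 1, (s = 1 ∨ dist Δ.p (Δ.g (Δ.pb X)) ≤ Δ.d₁) → ∀ q₀ q,
      IsMx (Δ.F X s) q₀ → dist Δ.p (Δ.y X q) ≤ Δ.r + K * (Δ.F X s q₀ - Δ.F X s q))

/-- CPB. Compactness: the quantitative form of the conditions. -/
def T_CPB : Prop :=
  ∀ (M B S Q : Type) [MetricSpace M] [CompactSpace M] [TopologicalSpace B] [T2Space B]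
    [TopologicalSpace S] [CompactSpace S] [TopologicalSpace Q] [CompactSpace Q]
    (Δ : DatB M B S Q), ∃ K : ℝ, 0 ≤ K ∧ QB Δ K

/-- ABB. The abstract contraction. -/
def T_ABB : Prop :=
  ∀ (M B S Q : Type) [MetricSpace M] [CompactSpace M] [TopologicalSpace B] [T2Space B]
    [TopologicalSpace S] [CompactSpace S] [Nonempty S] [TopologicalSpace Q] [CompactSpace Q]
    [Nonempty Q] (Δ : DatB M B S Q) (ε : ℝ) (hε : 0 < ε), Δ.r / 2 < ε →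
    ((kurU M ε hε).comp Δ.g).Nullhomotopic

/-! ## Part II: the map from complex to quaternionic vectors -/

/-- the quaternion `a + b j` -/
def qt (a b : ℂ) : ℍ[ℝ] := ⟨a.re, a.im, b.re, b.im⟩

/-- coordinate number `k` of a vector, zero if there is none -/
def xk {m : ℕ} (x : Fin m → ℂ) (k : ℕ) : ℂ := if h : k < m then x ⟨k, h⟩ else 0

/-- the quaternionic vector of a complex vector; its last coordinate is a complex number -/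
def qv {n : ℕ} (x : Fin (2 * n + 1) → ℂ) : Fin (n + 1) → ℍ[ℝ] :=
  fun i => qt (xk x (2 * (i : ℕ))) (xk x (2 * (i : ℕ) + 1))

/-- the coordinates without the first two -/
def t2 {m : ℕ} (x : Fin (m + 2) → ℂ) : Fin m → ℂ := fun i => xk x ((i : ℕ) + 2)

/-- QTA. Products and norms of the quaternions `a + b j`. -/
def T_QTA : Prop :=
  (∀ a b : ℂ, ‖qt a b‖ ^ 2 = ‖a‖ ^ 2 + ‖b‖ ^ 2) ∧
  (∀ u a b : ℂ, qt u 0 * qt a b = qt (u * a) (u * b)) ∧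
  (∀ u a b : ℂ, qt 0 u * qt a b = qt (-(u * star b)) (u * star a)) ∧
  (∀ a b : ℂ, re (qt a b) = a.re) ∧
  (∀ u u' : ℂ, re (qt u 0 * star (qt u' 0)) = re (u * star u')) ∧
  (∀ u u' : ℂ, re (qt 0 (star u) * star (qt 0 (star u'))) = re (u * star u')) ∧
  (∀ u u' : ℂ, re (qt u 0 * star (qt 0 (star u'))) = 0) ∧
  Continuous (fun z : ℂ × ℂ => qt z.1 z.2)

/-- QVA. The map `qv`. -/
def T_QVA : Prop := ∀ (n : ℕ),
  Continuous (qv : (Fin (2 * n + 1) → ℂ) → Fin (n + 1) → ℍ[ℝ]) ∧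
  (∀ x : Fin (2 * n + 1) → ℂ, nrm (qv x) = nrm x) ∧
  (∀ (a : ℂ) (x : Fin (2 * n + 1) → ℂ), qv (a • x) = qt a 0 • qv x) ∧
  (∀ x : Fin (2 * n + 1) → ℂ, x ≠ 0 → qv x ≠ 0)

/-- QVT. The first coordinate and the others. -/
def T_QVT : Prop := ∀ (k : ℕ) (x : Fin (2 * (k + 1) + 1) → ℂ),
  (qv x : Fin (k + 1 + 1) → ℍ[ℝ]) 0 = qt (xk x 0) (xk x 1) ∧
  nrm (tl (qv x : Fin (k + 1 + 1) → ℍ[ℝ])) = nrm (t2 (m := 2 * k + 1) x) ∧
  nrm x ^ 2 = ‖xk x 0‖ ^ 2 + ‖xk x 1‖ ^ 2 + nrm (t2 (m := 2 * k + 1) x) ^ 2 ∧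
  (∀ a : ℂ, t2 (m := 2 * k + 1) (a • x) = a • t2 (m := 2 * k + 1) x ∧
    xk (a • x) 0 = a * xk x 0 ∧ xk (a • x) 1 = a * xk x 1) ∧
  Continuous (fun x : Fin (2 * (k + 1) + 1) → ℂ => t2 (m := 2 * k + 1) x) ∧
  Continuous (fun x : Fin (2 * (k + 1) + 1) → ℂ => xk x 0) ∧
  Continuous (fun x : Fin (2 * (k + 1) + 1) → ℂ => xk x 1)

/-- QGM. The map of the complex projective space onto the quaternionic one. -/
def T_QGM : Prop := ∀ n : ℕ, ∃ g : C(CPn (2 * n), HPn n),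
  ∀ (x : Fin (2 * n + 1) → ℂ) (hx : x ≠ 0) (hx' : qv x ≠ 0),
    g (PP.mk x hx : PP ℂ (2 * n)) = (PP.mk (qv x) hx' : PP ℍ[ℝ] n)

/-! ## Part III: the ring of two circles -/

/-- DS2. The distance between points of the rings at two latitudes. -/
def T_DS2 : Prop :=
  ∀ (𝕜 : Type) [NormedDivisionRing 𝕜] [StarRing 𝕜] [NormedAlgebra ℝ 𝕜] [PF 𝕜] (n : ℕ)
    (ρ ρ' : ℝ) (x : Sph 𝕜 n) (q q' : 𝕜), tl x.1 ≠ 0 → ‖q‖ = 1 → ‖q'‖ = 1 →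
    ∀ (hy : yv ρ x.1 q ≠ 0) (hy' : yv ρ' x.1 q' ≠ 0),
      Real.cos (2 * dist (PP.mk _ hy : PP 𝕜 n) (PP.mk _ hy')) =
        Real.cos (2 * ρ) * Real.cos (2 * ρ') +
          Real.sin (2 * ρ) * Real.sin (2 * ρ') * re (q * star q')

section

variable {k : ℕ}

/-- the height of a point of the sphere over the base point -/
def zh (x : Fin (2 * (k + 1) + 1) → ℂ) : ℝ := 1 - 2 * nrm (t2 (m := 2 * k + 1) x) ^ 2

/-- the vector for the circle in the first plane -/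
def xN (φ : ℝ) (x : Fin (2 * (k + 1) + 1) → ℂ) : Fin (2 * k + 1 + 1) → ℂ :=
  Fin.cons (((2 * Real.sin φ * nrm (t2 (m := 2 * k + 1) x) : ℝ) : ℂ) * xk x 0)
    (t2 (m := 2 * k + 1) x)

/-- the vector for the circle in the second plane -/
def xS (φ : ℝ) (x : Fin (2 * (k + 1) + 1) → ℂ) : Fin (2 * k + 1 + 1) → ℂ :=
  Fin.cons (((-(2 * Real.sin φ * nrm (t2 (m := 2 * k + 1) x)) : ℝ) : ℂ) * xk x 1)
    (t2 (m := 2 * k + 1) x)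

/-- the ring: two circles -/
abbrev Rg : Type := Usc ℂ × Bool

/-- the points of the ring, as vectors; `φ` is twice the latitude -/
def yQ (φ : ℝ) (x : Fin (2 * (k + 1) + 1) → ℂ) (q : Rg) : Fin (k + 1 + 1) → ℍ[ℝ] :=
  if q.2 then yv (Real.pi / 2 - φ / 2) (qv x) (qt 0 (star q.1.1))
  else yv (φ / 2) (qv x) (qt q.1.1 0)

/-- the inner product with the points of the ring, in the sphere of dimension four -/
def EQ (φ : ℝ) (x : Fin (2 * (k + 1) + 1) → ℂ) (q : Rg) : ℝ :=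
  if q.2 then -(zh x * Real.cos φ) + re (q.1.1 * xS φ x 0)
  else zh x * Real.cos φ + re (q.1.1 * xN φ x 0)

/-- the function which selects a part of the ring -/
def FQ (g : (Fin (2 * k + 1) → ℂ) → ℝ) (C φ : ℝ) (x : Fin (2 * (k + 1) + 1) → ℂ) (s : ℝ)
    (q : Rg) : ℝ :=
  if q.2 then -((1 - s) * (zh x * Real.cos φ)) - s * C + FG g (xS φ x) s q.1.1
  else (1 - s) * (zh x * Real.cos φ) + FG g (xN φ x) s q.1.1

end

/-- the upper bound for the filling radius of `HPn n` -/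
def radH (n : ℕ) : ℝ :=
  Real.arccos (-(Real.cos (Real.pi / (4 * n - 1)) / (2 + Real.cos (Real.pi / (4 * n - 1))))) / 4

/-- PAB. Choice of the parameters. -/
def T_PAB : Prop :=
  (∀ n : ℕ, 1 ≤ n → 0 < radH n ∧ radH n < Real.arccos (-(1 / 3)) / 4) ∧
  radH 1 = Real.arccos (-(1 / 5)) / 4 ∧
  ∀ (k : ℕ) (r : ℝ), 2 * radH (k + 1) < r → r < Real.pi / 2 →
    ∃ φ : ℝ, 0 < φ ∧ φ < Real.pi / 2 ∧ φ / 2 < r ∧ Real.cos (2 * r) < 0 ∧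
      Real.cos (2 * r) < -Real.cos φ ^ 2 ∧
      Real.cos (2 * r) < Real.cos φ ^ 2 - Real.cos (Real.pi / (4 * k + 3)) * Real.sin φ ^ 2

/-- FQF. The function `FQ` in terms of the inner products; a bound of the selector. -/
def T_FQF : Prop := ∀ (k : ℕ) (g : (Fin (2 * k + 1) → ℂ) → ℝ), Continuous g →
  (∀ (C φ : ℝ) (x : Fin (2 * (k + 1) + 1) → ℂ) (s : ℝ) (q : Rg), FQ g C φ x s q =
    (1 - s) * EQ φ x q + s * (g (fun j => q.1.1 * vv (xN φ x) j) - if q.2 then C else 0)) ∧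
  ∃ G : ℝ, 0 ≤ G ∧ ∀ (φ : ℝ) (x : Fin (2 * (k + 1) + 1) → ℂ) (q : Rg),
    t2 (m := 2 * k + 1) x ≠ 0 → |g (fun j => q.1.1 * vv (xN φ x) j)| ≤ G

/-- QDS. The distances between the points of the ring, the point itself and the base point. -/
def T_QDS : Prop := ∀ (k : ℕ) (g : C(CPn (2 * (k + 1)), HPn (k + 1))),
  (∀ (x : Fin (2 * (k + 1) + 1) → ℂ) (hx : x ≠ 0) (hx' : qv x ≠ 0),
    g (PP.mk x hx : PP ℂ (2 * (k + 1))) = (PP.mk (qv x) hx' : PP ℍ[ℝ] (k + 1))) →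
  ∀ (φ : ℝ) (X : Sph ℂ (2 * (k + 1))), 0 < φ → φ < Real.pi / 2 →
  Real.cos (2 * dist (bp ℍ[ℝ] (k + 1) : HPn (k + 1)) (g (prS X))) = zh X.1 ∧
  (g (prS X) ≠ (bp ℍ[ℝ] (k + 1) : HPn (k + 1)) → t2 (m := 2 * k + 1) X.1 ≠ 0) ∧
  (t2 (m := 2 * k + 1) X.1 ≠ 0 → ∀ q : Rg, ∃ hy : yQ φ X.1 q ≠ 0,
    dist (bp ℍ[ℝ] (k + 1) : HPn (k + 1)) (PP.mk _ hy : PP ℍ[ℝ] (k + 1)) =
      (if q.2 then Real.pi / 2 - φ / 2 else φ / 2) ∧
    Real.cos (2 * dist (g (prS X)) (PP.mk _ hy : PP ℍ[ℝ] (k + 1))) = EQ φ X.1 q ∧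
    ∀ (q' : Rg) (hy' : yQ φ X.1 q' ≠ 0),
      Real.cos (2 * dist (PP.mk _ hy : PP ℍ[ℝ] (k + 1)) (PP.mk _ hy')) =
        if q.2 = q'.2 then Real.cos φ ^ 2 + Real.sin φ ^ 2 * re (q.1.1 * star q'.1.1)
        else -Real.cos φ ^ 2)

/-- QFP. The points of maximum of `FQ` on one of the circles: positive value, and not almost
antipodal. -/
def T_QFP : Prop := ∀ (k : ℕ) (g : (Fin (2 * k + 1) → ℂ) → ℝ), Sel ℂ (2 * k + 1) (2 * k + 1) g →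
  ∀ (C φ : ℝ) (x : Fin (2 * (k + 1) + 1) → ℂ) (s : ℝ), t2 (m := 2 * k + 1) x ≠ 0 → 0 < s →
  (∃ q : Rg, q.2 = false ∧ (1 - s) * (zh x * Real.cos φ) < FQ g C φ x s q) ∧
  ∀ q q' : Rg, IsMx (FQ g C φ x s) q → IsMx (FQ g C φ x s) q' → q.2 = q'.2 →
    -Real.cos (Real.pi / (4 * k + 3)) ≤ re (q.1.1 * star q'.1.1)

/-- QNR. Near: at the start the selected points are near the point. -/
def T_QNR : Prop := ∀ (k : ℕ) (g : (Fin (2 * k + 1) → ℂ) → ℝ), Continuous g →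
  ∀ (C φ η : ℝ), 0 < φ → φ < Real.pi / 2 → 0 < η → ∃ s₀ : ℝ, 0 < s₀ ∧ s₀ < 1 ∧
  ∀ (x : Fin (2 * (k + 1) + 1) → ℂ), t2 (m := 2 * k + 1) x ≠ 0 → ∀ q : Rg,
    IsMx (FQ g C φ x s₀) q → -η < EQ φ x q

/-- QNP. Near the base point, and at the end, the selected points are on the first circle. -/
def T_QNP : Prop := ∀ (k : ℕ) (g : (Fin (2 * k + 1) → ℂ) → ℝ), Sel ℂ (2 * k + 1) (2 * k + 1) g →
  ∃ C : ℝ, 0 ≤ C ∧ ∀ φ : ℝ, 0 < φ → φ < Real.pi / 2 → ∃ d : ℝ, 0 < d ∧ d ≤ Real.pi / 4 ∧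
  ∀ (x : Fin (2 * (k + 1) + 1) → ℂ) (s : ℝ), nrm x = 1 → t2 (m := 2 * k + 1) x ≠ 0 → 0 < s →
    s ≤ 1 → (s = 1 ∨ Real.cos (2 * d) ≤ zh x) → ∀ q : Rg, IsMx (FQ g C φ x s) q → q.2 = false

/-- QCI. Continuity of the ring and of `FQ`, and invariance under unit scalars. -/
def T_QCI : Prop := ∀ (k : ℕ) (g : (Fin (2 * k + 1) → ℂ) → ℝ), Continuous g → ∀ (C φ : ℝ),
  ContinuousOn (fun Z : (Fin (2 * (k + 1) + 1) → ℂ) × Rg => yQ φ Z.1 Z.2)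
    {Z | t2 (m := 2 * k + 1) Z.1 ≠ 0} ∧
  ContinuousOn (fun Z : (Fin (2 * (k + 1) + 1) → ℂ) × ℝ × Rg => FQ g C φ Z.1 Z.2.1 Z.2.2)
    {Z | t2 (m := 2 * k + 1) Z.1 ≠ 0} ∧
  ∀ (a : ℂ) (x : Fin (2 * (k + 1) + 1) → ℂ), ‖a‖ = 1 → ∀ q : Rg, ∃ q' : Rg,
    yQ φ (a • x) q = yQ φ x q' ∧ ∀ s, FQ g C φ (a • x) s q = FQ g C φ x s q'

/-- QDT. The data of the contraction. -/
def T_QDT : Prop := ∀ (k : ℕ) (g : C(CPn (2 * (k + 1)), HPn (k + 1))),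
  (∀ (x : Fin (2 * (k + 1) + 1) → ℂ) (hx : x ≠ 0) (hx' : qv x ≠ 0),
    g (PP.mk x hx : PP ℂ (2 * (k + 1))) = (PP.mk (qv x) hx' : PP ℍ[ℝ] (k + 1))) →
  ∀ r : ℝ, 2 * radH (k + 1) < r → r < Real.pi / 2 →
  ∃ Δ : DatB (HPn (k + 1)) (CPn (2 * (k + 1))) (Sph ℂ (2 * (k + 1))) Rg, Δ.g = g ∧ Δ.r = r

/-! ## Part IV: homology -/

/-- MVS. A map which has a section over the intersection of two open sets is onto in homology. -/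
def T_MVS : Prop := ∀ (Y Y' : Type) [TopologicalSpace Y] [TopologicalSpace Y'] (f : C(Y', Y))
  (O₁ O₂ : Set Y) (s : C(↥(O₁ ∩ O₂), Y')), IsOpen O₁ → IsOpen O₂ → O₁ ∪ O₂ = Set.univ →
  (∀ u, f (s u) = u.1) → ∀ n : ℕ, Van (n + 1) O₁ → Van (n + 1) O₂ →
  Van n ↥(f ⁻¹' O₁) → Van n ↥(f ⁻¹' O₂) → ∀ z : Ch ℤ (n + 1) Y, bd ℤ n Y z = 0 →
  ∃ (z' : Ch ℤ (n + 1) Y') (b : Ch ℤ (n + 2) Y), bd ℤ n Y' z' = 0 ∧
    bd ℤ (n + 1) Y b = z - pf ℤ (n + 1) f z'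

/-- SUS. Two open sets of the quaternionic projective space, their preimages, and a section. -/
def T_SUS : Prop := ∀ (k : ℕ) (g : C(CPn (2 * (k + 1)), HPn (k + 1))),
  (∀ (x : Fin (2 * (k + 1) + 1) → ℂ) (hx : x ≠ 0) (hx' : qv x ≠ 0),
    g (PP.mk x hx : PP ℂ (2 * (k + 1))) = (PP.mk (qv x) hx' : PP ℍ[ℝ] (k + 1))) →
  ∃ (O₁ O₂ : Set (HPn (k + 1))) (s : C(↥(O₁ ∩ O₂), CPn (2 * (k + 1)))),
    IsOpen O₁ ∧ IsOpen O₂ ∧ O₁ ∪ O₂ = Set.univ ∧ (∀ u, g (s u) = u.1) ∧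
    Van (4 * (k + 1) + 1) O₁ ∧ Van (4 * (k + 1) + 1) O₂ ∧
    Van (4 * (k + 1)) ↥(g ⁻¹' O₁) ∧ Van (4 * (k + 1)) ↥(g ⁻¹' O₂)

/-- SUR. The map onto the quaternionic projective space is onto in the top homology. -/
def T_SUR : Prop := ∀ (k : ℕ) (g : C(CPn (2 * (k + 1)), HPn (k + 1))),
  (∀ (x : Fin (2 * (k + 1) + 1) → ℂ) (hx : x ≠ 0) (hx' : qv x ≠ 0),
    g (PP.mk x hx : PP ℂ (2 * (k + 1))) = (PP.mk (qv x) hx' : PP ℍ[ℝ] (k + 1))) →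
  ∀ z : Ch ℤ (4 * (k + 1) + 1) (HPn (k + 1)), bd ℤ (4 * (k + 1)) (HPn (k + 1)) z = 0 →
  ∃ (z' : Ch ℤ (4 * (k + 1) + 1) (CPn (2 * (k + 1)))) (b : Ch ℤ (4 * (k + 1) + 2) (HPn (k + 1))),
    bd ℤ (4 * (k + 1)) (CPn (2 * (k + 1))) z' = 0 ∧
    bd ℤ (4 * (k + 1) + 1) (HPn (k + 1)) b = z - pf ℤ (4 * (k + 1) + 1) g z'

/-- KSU. If `g` is onto in homology and `f ∘ g` is null-homotopic then `f` induces zero. -/
def T_KSU : Prop := ∀ (Y Y' Z : Type) [TopologicalSpace Y] [TopologicalSpace Y']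
  [TopologicalSpace Z] (g : C(Y', Y)) (f : C(Y, Z)) (d : ℕ),
  (∀ z : Ch ℤ (d + 2) Y, bd ℤ (d + 1) Y z = 0 →
    ∃ (z' : Ch ℤ (d + 2) Y') (b : Ch ℤ (d + 3) Y), bd ℤ (d + 1) Y' z' = 0 ∧
      bd ℤ (d + 2) Y b = z - pf ℤ (d + 2) g z') →
  (f.comp g).Nullhomotopic → Kills (d + 1) f

/-- HQF. The upper bound. -/
def T_HQF : Prop := ∀ (n : ℕ) (ε : ℝ) (hε : 0 < ε), 1 ≤ n → radH n < ε →
  Kills (4 * n) (kc (HPn n) ε hε)

end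

end Pool.Agent.H30.HQ
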